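import Pool.Agent.H104.ML.Stm

/-!
# JOB CHEB (project ML of helper104): scaled Chebyshev polynomials
-/

set_option autoImplicit false

open Polynomial Finset

namespace Pool.Agent.Q210.ML

open Pool.Agent.H104.ML

theorem t_CHEB : S_CHEB := by
  intro n hn
  have hn0 : (0 : ℝ) < (n : ℝ) := by exact_mod_cast hn
  have hs : (0 : ℝ) < Real.sqrt n := Real.sqrt_pos.mpr hn0
  set q : ℝ[X] := C (2 / (n : ℝ)) * X + C (-1) with hq
  have h2n : (2 / (n : ℝ)) ≠ 0 := by positivity
  have hqd : q.natDegree = 1 := natDegree_linear h2n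
  have hql : q.leadingCoeff = 2 / (n : ℝ) := leadingCoeff_linear h2n
  refine ⟨fun t => C (1 / Real.sqrt n) * (Chebyshev.T ℝ (t : ℤ)).comp q, ?_⟩
  intro t
  have hdT : (Chebyshev.T ℝ (t : ℤ)).natDegree = t := by
    rw [Chebyshev.natDegree_T]; simp
  have hdc : ((Chebyshev.T ℝ (t : ℤ)).comp q).natDegree = t := by
    rw [natDegree_comp, hdT, hqd, mul_one]
  refine ⟨?_, ?_, ?_⟩
  · refine (natDegree_C_mul_le _ _).trans ?_
    rw [hdc]
  · rw [coeff_C_mul]
    have h1 : ((Chebyshev.T ℝ (t : ℤ)).comp q).coeff t =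
        (Chebyshev.T ℝ (t : ℤ)).leadingCoeff * (2 / (n : ℝ)) ^ t := by
      have h := leadingCoeff_comp (p := Chebyshev.T ℝ (t : ℤ)) (q := q) (by rw [hqd]; norm_num)
      rw [Polynomial.leadingCoeff, hdc, hql, hdT] at h
      exact h
    rw [h1, Chebyshev.leadingCoeff_T]
    have h2 : (2 : ℝ) ^ ((t : ℤ).natAbs - 1) ≥ 2 ^ t / 2 := by
      rcases t with _ | t
      · norm_num
      · simp only [Int.natAbs_natCast, Nat.add_sub_cancel]
        rw [pow_succ]
        linarith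
    have h3 : (4 : ℝ) ^ t = 2 ^ t * 2 ^ t := by
      rw [← mul_pow]; norm_num
    have h4 : 4 ^ t / (2 * (n : ℝ) ^ t * Real.sqrt n) =
        1 / Real.sqrt n * ((2 ^ t / 2) * (2 / (n : ℝ)) ^ t) := by
      rw [h3, div_pow]
      field_simp
    rw [h4]
    gcongr
  · intro j hj
    rw [eval_mul, eval_C, eval_comp, abs_mul, abs_of_pos (by positivity : (0:ℝ) < 1 / Real.sqrt n)]
    have hj0 : (0 : ℝ) ≤ (j : ℝ) := Nat.cast_nonneg j
    have hjn : (j : ℝ) ≤ (n : ℝ) := by exact_mod_cast hj.le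
    have hx : |q.eval (j : ℝ)| ≤ 1 := by
      rw [hq]
      simp only [eval_add, eval_mul, eval_C, eval_X]
      rw [abs_le]
      have h5 : 0 ≤ 2 / (n : ℝ) * j := by positivity
      have h6 : 2 / (n : ℝ) * j ≤ 2 := by
        rw [div_mul_eq_mul_div, div_le_iff₀ hn0]
        nlinarith
      constructor <;> linarith
    have h7 := Chebyshev.abs_eval_T_real_le_one (t : ℤ) hx
    calc 1 / Real.sqrt n * |eval (eval (j : ℝ) q) (Chebyshev.T ℝ (t : ℤ))|
        ≤ 1 / Real.sqrt n * 1 := by gcongr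
      _ = 1 / Real.sqrt n := mul_one _

end Pool.Agent.Q210.ML
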