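import Pool.Agent.H104.ML.Stm

/-!
# JOB ID (project ML of helper104): the algebraic identity for the energy
-/

set_option autoImplicit false

open Finset

namespace Pool.Agent.Q210.ML

open Pool.Agent.H104.ML

theorem sum_log_pf {c : ℕ} (hc : Squarefree c) :
    ∑ p ∈ c.primeFactors, Real.log (p : ℝ) = Real.log (c : ℝ) := by
  rw [← Real.log_prod]
  · congr 1
    rw [← Nat.cast_prod, Nat.prod_primeFactors_of_squarefree hc]
  · intro p hp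
    have := (Nat.prime_of_mem_primeFactors hp).pos
    positivity

theorem phi_mul {c p : ℕ} (hc : Squarefree c) (hp : p ∈ c.primeFactors) :
    (((c / p).totient : ℕ) : ℝ) * p = (c.totient : ℝ) + ((c / p).totient : ℝ) := by
  have hpp := Nat.prime_of_mem_primeFactors hp
  have hpc := Nat.dvd_of_mem_primeFactors hp
  obtain ⟨d, rfl⟩ := hpc
  have hd : p * d / p = d := Nat.mul_div_cancel_left d hpp.pos
  have hcop : Nat.Coprime p d := (Nat.squarefree_mul_iff.mp hc).1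
  rw [hd, Nat.totient_mul hcop, Nat.totient_prime hpp]
  have h1 : 1 ≤ p := hpp.one_le
  push_cast [Nat.cast_sub h1]
  ring

theorem sum_snd (S : Finset ℕ) (hsq : ∀ b ∈ S, Squarefree b)
    (hcl : ∀ b ∈ S, ∀ p ∈ b.primeFactors, b / p ∈ S) (f : ℕ → ℕ → ℝ) :
    ∑ x ∈ edges S, f (x.2 / x.1) x.2 = ∑ c ∈ S, ∑ p ∈ c.primeFactors, f p c := by
  rw [Finset.sum_sigma']
  refine Finset.sum_bij' (fun x _ => (⟨x.2, x.2 / x.1⟩ : (_ : ℕ) × ℕ))
    (fun y _ => (y.1 / y.2, y.1)) ?_ ?_ ?_ ?_ ?_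
  · rintro ⟨b, c⟩ hx
    simp only [edges, mem_filter, mem_product] at hx
    obtain ⟨⟨hb, hc⟩, hbc, hp⟩ := hx
    simp only [mem_sigma, Nat.mem_primeFactors]
    exact ⟨hc, hp, Nat.div_dvd_of_dvd hbc, (hsq c hc).ne_zero⟩
  · rintro ⟨c, p⟩ hy
    simp only [mem_sigma] at hy
    obtain ⟨hc, hp⟩ := hy
    have hpp := Nat.prime_of_mem_primeFactors hp
    have hpc := Nat.dvd_of_mem_primeFactors hp
    have hc0 : c ≠ 0 := (hsq c hc).ne_zero
    simp only [edges, mem_filter, mem_product]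
    refine ⟨⟨hcl c hc p hp, hc⟩, Nat.div_dvd_of_dvd hpc, ?_⟩
    rw [Nat.div_div_self hpc hc0]
    exact hpp
  · rintro ⟨b, c⟩ hx
    simp only [edges, mem_filter, mem_product] at hx
    obtain ⟨⟨hb, hc⟩, hbc, hp⟩ := hx
    simp only
    rw [Nat.div_div_self hbc (hsq c hc).ne_zero]
  · rintro ⟨c, p⟩ hy
    simp only [mem_sigma] at hy
    obtain ⟨hc, hp⟩ := hy
    have hpc := Nat.dvd_of_mem_primeFactors hp
    simp only
    rw [Nat.div_div_self hpc (hsq c hc).ne_zero]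
  · rintro ⟨b, c⟩ hx
    rfl

theorem t_ID : S_ID := by
  intro S μ n hsq hcl
  have hb0 : ∀ b ∈ S, (b : ℝ) ≠ 0 := fun b hb => by
    have := (hsq b hb).ne_zero
    exact_mod_cast this
  -- the cross terms
  have hcross : ∀ x ∈ edges S,
      (x.1.totient : ℝ) * Real.log ((x.2 / x.1 : ℕ) : ℝ) /
        ((x.1 : ℝ) ^ 2 * ((x.2 / x.1 : ℕ) : ℝ)) * ((x.1 * μ x.1 : ℝ) - (x.2 * μ x.2 : ℝ)) ^ 2 =
      (x.1.totient : ℝ) * (μ x.1 : ℝ) ^ 2 *
        (Real.log ((x.2 / x.1 : ℕ) : ℝ) / ((x.2 / x.1 : ℕ) : ℝ)) +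
      (μ x.2 : ℝ) ^ 2 * ((((x.2 / (x.2 / x.1)).totient : ℕ) : ℝ) * ((x.2 / x.1 : ℕ) : ℝ)) *
        Real.log ((x.2 / x.1 : ℕ) : ℝ) -
      2 * ((μ x.1 : ℝ) * (μ x.2 : ℝ) * (x.1.totient : ℝ) * Real.log ((x.2 / x.1 : ℕ) : ℝ)) := by
    rintro ⟨b, c⟩ hx
    simp only [edges, mem_filter, mem_product] at hx
    obtain ⟨⟨hb, hc⟩, hbc, hp⟩ := hx
    simp only
    rw [Nat.div_div_self hbc (hsq c hc).ne_zero]
    have hb1 := hb0 b hb
    obtain ⟨p, rfl⟩ := hbc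
    have hbpos : 0 < b := Nat.pos_of_ne_zero (hsq b hb).ne_zero
    rw [Nat.mul_div_cancel_left p hbpos] at hp ⊢
    have hp0 : (p : ℝ) ≠ 0 := by exact_mod_cast hp.ne_zero
    push_cast
    field_simp
    ring
  have hsum2 : ∑ x ∈ edges S, (μ x.2 : ℝ) ^ 2 *
      ((((x.2 / (x.2 / x.1)).totient : ℕ) : ℝ) * ((x.2 / x.1 : ℕ) : ℝ)) *
        Real.log ((x.2 / x.1 : ℕ) : ℝ) =
      ∑ c ∈ S, (μ c : ℝ) ^ 2 * ((c.totient : ℝ) * Real.log c +
        ∑ p ∈ c.primeFactors, ((c / p).totient : ℝ) * Real.log p) := by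
    have h := sum_snd S hsq hcl (fun p c => (μ c : ℝ) ^ 2 *
      ((((c / p).totient : ℕ) : ℝ) * (p : ℝ)) * Real.log (p : ℝ))
    refine h.trans ?_
    apply Finset.sum_congr rfl
    intro c hc
    rw [← sum_log_pf (hsq c hc), Finset.mul_sum, ← Finset.sum_add_distrib, Finset.mul_sum]
    apply Finset.sum_congr rfl
    intro p hp
    rw [phi_mul (hsq c hc) hp]
    ring
  have hsum1 : ∑ x ∈ edges S, (x.1.totient : ℝ) * (μ x.1 : ℝ) ^ 2 *
        (Real.log ((x.2 / x.1 : ℕ) : ℝ) / ((x.2 / x.1 : ℕ) : ℝ)) =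
      ∑ b ∈ S, (b.totient : ℝ) * (μ b : ℝ) ^ 2 * ∑ x ∈ (edges S).filter (fun x => x.1 = b),
        Real.log ((x.2 / x.1 : ℕ) : ℝ) / ((x.2 / x.1 : ℕ) : ℝ) := by
    rw [← Finset.sum_fiberwise_of_maps_to (s := edges S) (t := S) (g := fun x => x.1)]
    · apply Finset.sum_congr rfl
      intro b hb
      rw [Finset.mul_sum]
      apply Finset.sum_congr rfl
      rintro x hx
      rw [mem_filter] at hx
      rw [hx.2]
    · rintro x hx
      simp only [edges, mem_filter, mem_product] at hx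
      exact hx.1.1
  have hR : ∑ x ∈ edges S, (x.1.totient : ℝ) * Real.log ((x.2 / x.1 : ℕ) : ℝ) /
        ((x.1 : ℝ) ^ 2 * ((x.2 / x.1 : ℕ) : ℝ)) * ((x.1 * μ x.1 : ℝ) - (x.2 * μ x.2 : ℝ)) ^ 2 =
      ∑ b ∈ S, (b.totient : ℝ) * (μ b : ℝ) ^ 2 * ∑ x ∈ (edges S).filter (fun x => x.1 = b),
        Real.log ((x.2 / x.1 : ℕ) : ℝ) / ((x.2 / x.1 : ℕ) : ℝ) +
      ∑ c ∈ S, (μ c : ℝ) ^ 2 * ((c.totient : ℝ) * Real.log c +
        ∑ p ∈ c.primeFactors, ((c / p).totient : ℝ) * Real.log p) -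
      2 * ∑ x ∈ edges S, (μ x.1 : ℝ) * (μ x.2 : ℝ) * (x.1.totient : ℝ) *
        Real.log ((x.2 / x.1 : ℕ) : ℝ) := by
    rw [Finset.sum_congr rfl hcross, Finset.sum_sub_distrib, Finset.sum_add_distrib, hsum1, hsum2,
      Finset.mul_sum]
  rw [hR]
  unfold EEd
  have hfin : ∑ b ∈ S, (b.totient : ℝ) * (μ b : ℝ) ^ 2 * (Real.log n - Real.log (μ b) + 5)
      - ∑ b ∈ S, (μ b : ℝ) ^ 2 * ((b.totient : ℝ) * Real.log b -
          ∑ p ∈ b.primeFactors, ((b / p).totient : ℝ) * Real.log p) =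
      ∑ b ∈ S, (b.totient : ℝ) * (μ b : ℝ) ^ 2 * (Real.log n - Real.log (μ b) + 5 -
        2 * Real.log b - ∑ x ∈ (edges S).filter (fun x => x.1 = b),
          Real.log ((x.2 / x.1 : ℕ) : ℝ) / ((x.2 / x.1 : ℕ) : ℝ)) +
      ∑ b ∈ S, (b.totient : ℝ) * (μ b : ℝ) ^ 2 * ∑ x ∈ (edges S).filter (fun x => x.1 = b),
        Real.log ((x.2 / x.1 : ℕ) : ℝ) / ((x.2 / x.1 : ℕ) : ℝ) +
      ∑ c ∈ S, (μ c : ℝ) ^ 2 * ((c.totient : ℝ) * Real.log c +
        ∑ p ∈ c.primeFactors, ((c / p).totient : ℝ) * Real.log p) := by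
    rw [← Finset.sum_sub_distrib, ← Finset.sum_add_distrib, ← Finset.sum_add_distrib]
    apply Finset.sum_congr rfl
    intro b _
    ring
  rw [hfin]
  ring

end Pool.Agent.Q210.ML
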