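import Pool.Agent.H104.ML.Stm

/-!
# JOB RED (project ML of helper104): reduction modulo a monic polynomial
-/

set_option autoImplicit false

open Polynomial Finset

namespace Pool.Agent.Q210.ML

open Pool.Agent.H104.ML

theorem t_RED : S_RED := by
  intro g n hg
  constructor
  · intro i k hi hk
    unfold redc
    have h1 : (X ^ k : ℤ[X]) %ₘ g = X ^ k := by
      rw [modByMonic_eq_self_iff hg, degree_X_pow]
      rw [degree_eq_natDegree hg.ne_zero]
      exact_mod_cast hk
    rw [h1, coeff_X_pow]
  · rintro ⟨x, x', hne, h⟩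
    set p : ℤ[X] := ∑ j : Fin n, C ((((x j : Fin 2) : ℕ) : ℤ) - (((x' j : Fin 2) : ℕ) : ℤ)) * X ^ (j : ℕ)
      with hp
    have hcoeff : ∀ j : Fin n, p.coeff (j : ℕ) =
        (((x j : Fin 2) : ℕ) : ℤ) - (((x' j : Fin 2) : ℕ) : ℤ) := by
      intro j
      rw [hp, finsetSum_coeff]
      simp only [coeff_C_mul, coeff_X_pow]
      rw [Finset.sum_eq_single j]
      · simp
      · intro b _ hb
        have : (j : ℕ) ≠ (b : ℕ) := fun h' => hb (Fin.ext h'.symm)
        simp [this]
      · simp
    have hcoeff2 : ∀ i : ℕ, n ≤ i → p.coeff i = 0 := by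
      intro i hi
      rw [hp, finsetSum_coeff]
      apply Finset.sum_eq_zero
      intro b _
      rw [coeff_C_mul, coeff_X_pow]
      have : i ≠ (b : ℕ) := by have := b.2; omega
      simp [this]
    have hp0 : p ≠ 0 := by
      intro h0
      apply hne
      funext j
      have h1 := hcoeff j
      rw [h0, coeff_zero] at h1
      have h2 : ((x j : Fin 2) : ℕ) = ((x' j : Fin 2) : ℕ) := by omega
      exact Fin.ext h2
    have hn : 0 < n := by
      rcases Nat.eq_zero_or_pos n with h0 | h0
      · subst h0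
        exact absurd (Subsingleton.elim x x') hne
      · exact h0
    refine ⟨p, hp0, ?_, ?_, ?_⟩
    · intro i
      rcases lt_or_ge i n with hi | hi
      · have h1 := hcoeff ⟨i, hi⟩
        simp only at h1
        rw [h1]
        have h2 := (x ⟨i, hi⟩).2
        have h3 := (x' ⟨i, hi⟩).2
        omega
      · left; exact hcoeff2 i hi
    · rw [natDegree_lt_iff_degree_lt hp0, degree_lt_iff_coeff_zero]
      exact hcoeff2
    · rw [← modByMonic_eq_zero_iff_dvd hg]
      have hlin : p %ₘ g = ∑ j : Fin n,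
          ((((x j : Fin 2) : ℕ) : ℤ) - (((x' j : Fin 2) : ℕ) : ℤ)) • ((X ^ (j : ℕ) : ℤ[X]) %ₘ g) := by
        rw [hp]
        have h1 : ∀ q : ℤ[X], q %ₘ g = modByMonicHom g q := fun q => rfl
        rw [h1, map_sum]
        apply Finset.sum_congr rfl
        intro j _
        rw [← smul_eq_C_mul, map_smul, ← h1]
      ext i
      rw [coeff_zero]
      rcases lt_or_ge i g.natDegree with hi | hi
      · rw [hlin, finsetSum_coeff]
        simp only [coeff_smul, smul_eq_mul]
        have h2 := h ⟨i, hi⟩
        unfold redc at h2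
        simp only at h2
        have h3 : ∑ j : Fin n, ((((x j : Fin 2) : ℕ) : ℤ) - (((x' j : Fin 2) : ℕ) : ℤ)) *
            ((X ^ (j : ℕ) : ℤ[X]) %ₘ g).coeff i =
            ∑ j : Fin n, ((X ^ (j : ℕ) : ℤ[X]) %ₘ g).coeff i * (((x j : Fin 2) : ℕ) : ℤ) -
            ∑ j : Fin n, ((X ^ (j : ℕ) : ℤ[X]) %ₘ g).coeff i * (((x' j : Fin 2) : ℕ) : ℤ) := by
          rw [← Finset.sum_sub_distrib]
          apply Finset.sum_congr rfl
          intro j _
          ring
        rw [h3, h2, sub_self]
      · apply coeff_eq_zero_of_degree_lt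
        refine lt_of_lt_of_le (degree_modByMonic_lt _ hg) ?_
        rw [degree_eq_natDegree hg.ne_zero]
        exact_mod_cast hi

end Pool.Agent.Q210.ML
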